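import Pool.Agent.V8H81.Star.Knot

/-!
# The real parts of the zeros of the Alexander polynomials of alternating knots are unbounded

Oriented sliced link diagrams (`OPiece`, `OWord`, `OClosed`, `forget`), their isotopies
(`OIsotopic`: planar isotopies and Reidemeister moves) and the skein rules (`HomflyRules`) are those
of `Pool.Agent.Helper454.Wh.Defs`, unoriented diagrams (`Piece`, `Word`, `Isotopic`, `IsKnot`: exactly
one component) those of `Pool.Agent.Helper454.Kauf.Defs`.  `IsConway Λ`
(`Pool.Agent.Q174.TB.Conway`): `Λ` is the Conway polynomial, that is an isotopy invariant of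
oriented link diagrams with values in `ℤ[z, z⁻¹]` such that `Λ(L₊) - Λ(L₋) = z Λ(L₀)` and
`Λ(unknot) = 1`.  `Alternating` is defined in `Pool.Agent.V8H81.Star.Knot`.

The knots are the boundaries of star-shaped plumbings: to an unknotted band with one positive full
twist `n + 1` bands with a negative full twist are plumbed, and to `n` of these a further band with a
positive full twist.  The boundary is an alternating knot with the Conway polynomial
`(1 - z²)^(n-1) ((1 - z²)² - n z²)`, the zeros of which tend to infinity with `n`.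
-/

set_option autoImplicit false

namespace Pool.Agent.Results.MP_644796_gt.UnboundedZeros

open Pool.Agent.Helper454.Kauf (Word IsKnot Isotopic)
open Pool.Agent.Helper454.Wh (OWord OClosed forget)
open Pool.Agent.V8H81.Star Q174.TBD
open LaurentPolynomial (T)
open Polynomial (toLaurent)

/-- `K` is a diagram of an alternating knot: it is an oriented diagram with exactly one component,
and the knot has an alternating diagram. -/
def IsAlternatingKnot (K : OWord) : Prop :=
  OClosed K ∧ IsKnot (forget K) ∧ ∃ D : Word, Isotopic (forget K) D ∧ Alternating D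

/-- `Δ`, a Laurent polynomial in `t = T 1`, is the Alexander polynomial of the knot with diagram `K`,
in Conway's normalisation: the Conway polynomial `Λ K` has the form `Q(z²)` with a polynomial `Q`, and
`Δ = Q((t^{1/2} - t^{-1/2})²) = Q(t - 2 + t⁻¹)`. -/
def IsAlexander (Λ : OWord → LaurentPolynomial ℤ) (K : OWord) (Δ : LaurentPolynomial ℤ) : Prop :=
  ∃ Q : Polynomial ℤ, Λ K = toLaurent (Q.comp (Polynomial.X ^ 2)) ∧
    Δ = Polynomial.aeval (T 1 - 2 + T (-1) : LaurentPolynomial ℤ) Q

/-- The nonzero complex number `z` is a zero of the Laurent polynomial `Δ`. -/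
def IsZero (Δ : LaurentPolynomial ℤ) (z : ℂ) : Prop :=
  ∃ hz : z ≠ 0, LaurentPolynomial.eval₂ (Int.castRingHom ℂ) (Units.mk0 z hz) Δ = 0

/-- the Conway polynomial of the star knots, as a polynomial in `z²` -/
noncomputable def starQ (n : ℕ) : Polynomial ℤ :=
  (1 - Polynomial.X) ^ (n + 1) - (n : Polynomial ℤ) * Polynomial.X * (1 - Polynomial.X) ^ (n - 1)

theorem conway_star {Λ : OWord → LaurentPolynomial ℤ} (hΛ : IsConway Λ) (n : ℕ) :
    Λ (star n) = toLaurent ((starQ n).comp (Polynomial.X ^ 2)) := by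
  have hm : ∀ x : OWord → LaurentPolynomial ℤ, (T 1 : LaurentPolynomial ℤ) • x = 0 → x = 0 := by
    intro x hx
    have h : (T (-1) : LaurentPolynomial ℤ) • (T 1 : LaurentPolynomial ℤ) • x = 0 := by
      rw [hx, smul_zero]
    rw [smul_smul, ← LaurentPolynomial.T_add] at h
    simpa using h
  have h1 := star_val hΛ.1 hm n
  have h2 : Pool.Agent.Helper454.Wh.ap (Pool.Agent.Helper454.Wh.extd Λ) (star n) [] = Λ (star n) := by
    unfold Pool.Agent.Helper454.Wh.ap Pool.Agent.Helper454.Wh.extd
    rw [List.append_nil, if_pos (star_closed n)]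
  rw [← h2, h1, hΛ.2, smul_eq_mul, mul_one]
  unfold starQ
  simp only [Polynomial.sub_comp, Polynomial.pow_comp, Polynomial.one_comp, Polynomial.X_comp,
    Polynomial.mul_comp, Polynomial.natCast_comp, map_sub, map_pow, map_one, map_mul, map_natCast,
    Polynomial.toLaurent_X]
  ring

/-- there are large real zeros -/
theorem exists_zero (C : ℝ) : ∃ (n : ℕ) (t : ℝ), C < t ∧ 0 < t ∧
    (1 - (t - 2 + t⁻¹)) ^ (n + 1) - (n : ℝ) * (t - 2 + t⁻¹) * (1 - (t - 2 + t⁻¹)) ^ (n - 1) = 0 := by
  set c : ℝ := max C 3 with hc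
  have hc3 : 3 ≤ c := le_max_right _ _
  obtain ⟨n, hn⟩ := exists_nat_gt (3 * c)
  have hn0 : (0 : ℝ) < n := by linarith
  let F : ℝ → ℝ := fun t => (1 - (t - 2 + t⁻¹)) ^ 2 - (n : ℝ) * (t - 2 + t⁻¹)
  have hF : ContinuousOn F (Set.Icc c (n + 5)) := by
    have h1 : ContinuousOn (fun t : ℝ => t⁻¹) (Set.Icc c (n + 5)) :=
      continuousOn_inv₀.mono (fun x hx => by
        have := hx.1
        show x ≠ 0
        linarith)
    fun_prop
  have hlo : F c < 0 := by
    have h1 : 0 < c⁻¹ := inv_pos.2 (by linarith)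
    have h2 : c⁻¹ ≤ 1 := inv_le_one_of_one_le₀ (by linarith)
    show (1 - (c - 2 + c⁻¹)) ^ 2 - (n : ℝ) * (c - 2 + c⁻¹) < 0
    nlinarith [mul_pos hn0 h1, mul_lt_mul_of_pos_right hn (show (0 : ℝ) < c - 2 + c⁻¹ by linarith)]
  have hhi : 0 < F (n + 5) := by
    have h1 : 0 < ((n : ℝ) + 5)⁻¹ := inv_pos.2 (by linarith)
    show 0 < (1 - ((n : ℝ) + 5 - 2 + ((n : ℝ) + 5)⁻¹)) ^ 2 -
      (n : ℝ) * ((n : ℝ) + 5 - 2 + ((n : ℝ) + 5)⁻¹)
    nlinarith [mul_pos hn0 h1]
  have hle : c ≤ (n : ℝ) + 5 := by linarith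
  obtain ⟨t, ht, hFt⟩ := intermediate_value_Ioo hle hF ⟨hlo, hhi⟩
  refine ⟨n, t, lt_of_le_of_lt (le_max_left _ _) ht.1, by linarith [ht.1], ?_⟩
  have hn1 : n = (n - 1) + 1 := by
    have : 0 < n := by exact_mod_cast hn0
    omega
  have e : (1 - (t - 2 + t⁻¹)) ^ (n + 1) = (1 - (t - 2 + t⁻¹)) ^ 2 * (1 - (t - 2 + t⁻¹)) ^ (n - 1) := by
    rw [← pow_add]
    congr 1
    omega
  have h3 : (1 - (t - 2 + t⁻¹)) ^ 2 - (n : ℝ) * (t - 2 + t⁻¹) = 0 := hFt
  rw [e, ← sub_mul, h3, zero_mul]

/-- The Conway polynomial exists, and there is no real number `C` such that the zeros of the Alexander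
polynomials of all alternating knots have real part at most `C`: for every real `C` there is
an alternating knot whose Alexander polynomial has a zero with real part larger than `C`. -/
theorem result :
    (∃ Λ : OWord → LaurentPolynomial ℤ, IsConway Λ) ∧
    ∀ Λ : OWord → LaurentPolynomial ℤ, IsConway Λ →
      ∀ C : ℝ, ∃ K : OWord, IsAlternatingKnot K ∧ ∃ Δ : LaurentPolynomial ℤ, IsAlexander Λ K Δ ∧
        ∃ z : ℂ, IsZero Δ z ∧ C < z.re := by
  refine ⟨exists_conway, fun Λ hΛ C => ?_⟩
  obtain ⟨n, t, hCt, ht, h⟩ := exists_zero C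
  have htz : (t : ℂ) ≠ 0 := by exact_mod_cast ht.ne'
  refine ⟨star n, ⟨star_closed n, star_knot n, forget (star n), Relation.EqvGen.refl _,
    star_alternating n⟩, _, ⟨starQ n, conway_star hΛ n, rfl⟩, (t : ℂ), ⟨htz, ?_⟩, ?_⟩
  · unfold starQ
    simp only [map_sub, map_pow, map_one, map_mul, map_natCast, Polynomial.aeval_X, map_add,
      map_ofNat, LaurentPolynomial.eval₂_T, zpow_one, zpow_neg, Units.val_mk0, Units.val_inv_eq_inv_val]
    exact_mod_cast h
  · simpa using hCt

end Pool.Agent.Results.MP_644796_gt.UnboundedZeros
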